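import Pool.Agent.J6H54.CH.Stm2

/-!
# Module CH-33: the hyperbolic structure of `Λ = ⋃ B ^ (-d) ℤⁿ`
-/

set_option autoImplicit false

namespace Pool.Agent.J6H3.CH33

open Pool.Agent.J6H54.CH
open Finset Filter Topology Matrix

section
variable {n : ℕ} (B : Matrix (Fin n) (Fin n) ℤ) (hB : B.det ≠ 0)

/-- the real vector of an element -/
noncomputable def re (x : Lam B) : Fin n → ℝ := fun i => ((x.1 i : ℚ) : ℝ)

theorem re_add (x y : Lam B) : re B (x + y) = re B x + re B y := by
  ext i
  simp [re]

theorem re_neg (x : Lam B) : re B (-x) = - re B x := by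
  ext i
  simp [re]

theorem re_sub (x y : Lam B) : re B (x - y) = re B x - re B y := by
  rw [sub_eq_add_neg, re_add, re_neg, ← sub_eq_add_neg]

theorem re_inj (x y : Lam B) (h : re B x = re B y) : x = y := by
  apply Subtype.ext
  ext i
  have := congrFun h i
  simpa [re] using this

/-- the real matrix of `B` -/
noncomputable def rl : Matrix (Fin n) (Fin n) ℝ := B.map (Int.castRingHom ℝ)

theorem sig_val (x : Lam B) : (sig B hB x).1 = (rat B).mulVec x.1 := rfl

theorem re_sig (x : Lam B) : re B (sig B hB x) = (rl B).mulVec (re B x) := by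
  ext i
  simp [re, sig_val, Matrix.mulVec, dotProduct, rat, rl]

/-- the element of an integral vector -/
def ofI (a : Fin n → ℤ) : Lam B := ⟨fun i => (a i : ℚ), 0, by
  rw [pow_zero, Matrix.one_mulVec]
  exact fun i => ⟨a i, rfl⟩⟩

theorem re_ofI (a : Fin n → ℤ) : re B (ofI B a) = fun i => (a i : ℝ) := by
  ext i
  simp [re, ofI]

/-- `B ^ d x` is integral -/
def In (d : ℤ) (x : Lam B) : Prop := IsInt ((sig B hB ^ d) x).1

theorem In_add (d : ℤ) (x y : Lam B) (hx : In B hB d x) (hy : In B hB d y) : In B hB d (x + y) := by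
  intro i
  obtain ⟨a, ha⟩ := hx i
  obtain ⟨b, hb⟩ := hy i
  refine ⟨a + b, ?_⟩
  rw [map_add]
  push_cast
  rw [← ha, ← hb]
  rfl

theorem In_neg (d : ℤ) (x : Lam B) (hx : In B hB d x) : In B hB d (-x) := by
  intro i
  obtain ⟨a, ha⟩ := hx i
  refine ⟨-a, ?_⟩
  rw [map_neg]
  push_cast
  rw [← ha]
  rfl

theorem In_sig (d : ℤ) (x : Lam B) : In B hB d (sig B hB x) ↔ In B hB (d + 1) x := by
  unfold In
  rw [pow_add_apply, zpow_one]

theorem In_succ (d : ℤ) (x : Lam B) (hx : In B hB d x) : In B hB (d + 1) x := by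
  unfold In at hx ⊢
  rw [add_comm, pow_add_apply, zpow_one, sig_val]
  exact hx.mulVec B

theorem In_mono (d e : ℤ) (hde : d ≤ e) (x : Lam B) (hx : In B hB d x) : In B hB e x := by
  induction e, hde using Int.leInduction with
  | base => exact hx
  | succ e _ ih => exact In_succ B hB e x ih

theorem In_zero (x : Lam B) : In B hB 0 x ↔ IsInt x.1 := by
  unfold In
  rw [pow_zero_apply]

theorem sig_pow_val (d : ℕ) (x : Lam B) : ((sig B hB ^ (d : ℤ)) x).1 = (rat B ^ d).mulVec x.1 := by
  induction d with
  | zero => simp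
  | succ d ih =>
    have e : ((d + 1 : ℕ) : ℤ) = 1 + (d : ℤ) := by push_cast; ring
    rw [e, pow_add_apply, zpow_one, sig_val, ih, Matrix.mulVec_mulVec, ← pow_succ']

theorem exists_In (x : Lam B) : ∃ d : ℤ, In B hB d x := by
  obtain ⟨d, hd⟩ := x.2
  refine ⟨(d : ℤ), ?_⟩
  unfold In
  rw [sig_pow_val]
  exact hd

/-- the denominator norm -/
noncomputable def del (x : Lam B) : ℝ := sInf {r : ℝ | ∃ d : ℤ, In B hB d x ∧ (2 : ℝ) ^ d = r}

theorem del_bdd (x : Lam B) : BddBelow {r : ℝ | ∃ d : ℤ, In B hB d x ∧ (2 : ℝ) ^ d = r} :=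
  ⟨0, by rintro r ⟨d, -, rfl⟩; positivity⟩

theorem del_ne (x : Lam B) : {r : ℝ | ∃ d : ℤ, In B hB d x ∧ (2 : ℝ) ^ d = r}.Nonempty := by
  obtain ⟨d, hd⟩ := exists_In B hB x
  exact ⟨_, d, hd, rfl⟩

theorem del_nonneg (x : Lam B) : 0 ≤ del B hB x :=
  Real.sInf_nonneg (by rintro r ⟨d, -, rfl⟩; positivity)

theorem del_le (x : Lam B) (d : ℤ) (h : In B hB d x) : del B hB x ≤ (2 : ℝ) ^ d :=
  csInf_le (del_bdd B hB x) ⟨d, h, rfl⟩

theorem le_del (x : Lam B) (c : ℝ) (h : ∀ d, In B hB d x → c ≤ (2 : ℝ) ^ d) : c ≤ del B hB x :=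
  le_csInf (del_ne B hB x) (by rintro r ⟨d, hd, rfl⟩; exact h d hd)

theorem del_lt (x : Lam B) (c : ℝ) (h : del B hB x < c) : ∃ d, In B hB d x ∧ (2 : ℝ) ^ d < c := by
  obtain ⟨r, ⟨d, hd, rfl⟩, hr⟩ := exists_lt_of_csInf_lt (del_ne B hB x) h
  exact ⟨d, hd, hr⟩

theorem del_neg (x : Lam B) : del B hB (-x) = del B hB x := by
  apply le_antisymm
  · exact le_del B hB x _ fun d hd => del_le B hB (-x) d (In_neg B hB d x hd)
  · refine le_del B hB (-x) _ fun d hd => del_le B hB x d ?_
    have := In_neg B hB d (-x) hd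
    rwa [neg_neg] at this

theorem del_add (x y : Lam B) : del B hB (x + y) ≤ del B hB x + del B hB y := by
  apply le_of_forall_pos_le_add
  intro ε hε
  obtain ⟨d, hd, hd'⟩ := del_lt B hB x (del B hB x + ε / 2) (by linarith)
  obtain ⟨e, he, he'⟩ := del_lt B hB y (del B hB y + ε / 2) (by linarith)
  have hm := del_le B hB (x + y) (max d e)
    (In_add B hB _ x y (In_mono B hB d _ (le_max_left _ _) x hd)
      (In_mono B hB e _ (le_max_right _ _) y he))
  have h1 : (2 : ℝ) ^ (max d e) ≤ (2 : ℝ) ^ d + (2 : ℝ) ^ e := by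
    have hd0 : (0 : ℝ) < (2 : ℝ) ^ d := by positivity
    have he0 : (0 : ℝ) < (2 : ℝ) ^ e := by positivity
    rcases max_choice d e with h | h <;> rw [h] <;> linarith
  linarith

theorem del_sig (x : Lam B) : 2 * del B hB (sig B hB x) = del B hB x := by
  apply le_antisymm
  · apply le_del
    intro d hd
    have h1 : In B hB (d - 1) (sig B hB x) := by
      rw [In_sig]
      simpa using hd
    have h2 := del_le B hB _ _ h1
    have h3 : (2 : ℝ) ^ (d - 1) = 2 ^ d / 2 := by
      rw [zpow_sub_one₀ (by norm_num)]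
      ring
    linarith
  · have h4 : del B hB x / 2 ≤ del B hB (sig B hB x) := by
      apply le_del
      intro d hd
      have h1 := del_le B hB x (d + 1) ((In_sig B hB d x).1 hd)
      rw [zpow_add_one₀ (by norm_num)] at h1
      linarith
    linarith

theorem sig_inv (x : Lam B) : sig B hB ((sig B hB)⁻¹ x) = x := by
  have h := pow_pow_neg (σ := sig B hB) 1 x
  rwa [zpow_one, _root_.zpow_neg_one] at h

end

/-- finitely many integral vectors of bounded norm -/
theorem fin_int {n : ℕ} (B : Matrix (Fin n) (Fin n) ℤ) (K : ℝ) :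
    {y : Lam B | IsInt y.1 ∧ ‖re B y‖ ≤ K}.Finite := by
  obtain ⟨N, hN⟩ := exists_nat_ge K
  apply Set.Finite.of_finite_image (f := fun (y : Lam B) (i : Fin n) => ⌊y.1 i⌋)
  · refine (Set.Finite.pi' (t := fun _ : Fin n => Set.Icc (-(N : ℤ)) N) (fun _ => Set.finite_Icc _ _)).subset ?_
    rintro _ ⟨y, ⟨hy1, hy2⟩, rfl⟩ i
    obtain ⟨a, ha⟩ := hy1 i
    have h1 : ‖re B y i‖ ≤ N := (norm_le_pi_norm _ i).trans (hy2.trans hN)
    have h2 : re B y i = (a : ℝ) := by
      simp only [re, ha]
      norm_cast
    rw [h2, Real.norm_eq_abs] at h1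
    have h3 : |a| ≤ (N : ℤ) := by exact_mod_cast h1
    simp only [ha, Int.floor_intCast]
    exact abs_le.1 h3
  · rintro y ⟨hy1, -⟩ y' ⟨hy1', -⟩ h
    apply Subtype.ext
    ext i
    obtain ⟨a, ha⟩ := hy1 i
    obtain ⟨a', ha'⟩ := hy1' i
    have h1 := congrFun h i
    simp only [ha, ha', Int.floor_intCast] at h1
    rw [ha, ha', h1]

theorem m33 (h32 : S_arch) : S_hnn := by
  intro n B hB hev
  have hdet : (rl B).det ≠ 0 := by
    have h : (rl B).det = ((B.det : ℤ) : ℝ) := by
      unfold rl
      rw [← RingHom.mapMatrix_apply, ← RingHom.map_det]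
      rfl
    rw [h]
    exact_mod_cast hB
  have hev' : ∀ μ : ℂ, ((rl B).charpoly.map (algebraMap ℝ ℂ)).IsRoot μ → ‖μ‖ ≠ 1 := by
    intro μ hμ
    apply hev μ
    have h : (rl B).charpoly = B.charpoly.map (Int.castRingHom ℝ) := Matrix.charpoly_map B _
    rw [h, Polynomial.map_map] at hμ
    have h2 : (algebraMap ℝ ℂ).comp (Int.castRingHom ℝ) = Int.castRingHom ℂ := RingHom.ext_int _ _
    rwa [h2] at hμ
  obtain ⟨p, q, κ, M, hκ0, hκ1, hM, hp0, hq0, hpn, hqn, hpa, hqa, hpc, hqc, hpg, hqg, hnorm, hpM, hqM,
    happ⟩ := h32 (n + 1) (rl B) hdet hev'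
  have hpz : p 0 = 0 := by
    have h := hpc 0
    rw [Matrix.mulVec_zero] at h
    nlinarith [hp0 0]
  have hqz : q 0 = 0 := by
    have h := hqc 0
    rw [Matrix.mulVec_zero] at h
    nlinarith [hq0 0]
  have hre0 : re B (0 : Lam B) = 0 := by
    ext i
    simp [re]
  have hdz : del B hB 0 = 0 := by
    have h := del_sig B hB 0
    rw [map_zero] at h
    linarith
  have hM0 : (0 : ℝ) ≤ M := by linarith
  have hgrow : ∀ (d : ℕ) (x : Lam B), p (re B ((sig B hB ^ (d : ℤ)) x)) ≤ M ^ d * p (re B x) ∧
      q (re B ((sig B hB ^ (d : ℤ)) x)) ≤ q (re B x) := by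
    intro d x
    induction d with
    | zero => simp
    | succ d ih =>
      have e : ((d + 1 : ℕ) : ℤ) = 1 + (d : ℤ) := by push_cast; ring
      rw [e, pow_add_apply, zpow_one, re_sig]
      constructor
      · refine (hpg _).trans ?_
        rw [pow_succ', mul_assoc]
        exact mul_le_mul_of_nonneg_left ih.1 hM0
      · refine (hqc _).trans (le_trans ?_ ih.2)
        exact mul_le_of_le_one_left (hq0 _) hκ1.le
  have hround : ∀ u : Fin (n + 1) → ℝ, ‖u - fun i => ((round (u i) : ℤ) : ℝ)‖ ≤ 1 := by
    intro u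
    rw [pi_norm_le_iff_of_nonneg zero_le_one]
    intro i
    rw [Pi.sub_apply, Real.norm_eq_abs]
    exact (abs_sub_round (u i)).trans (by norm_num)
  refine ⟨fun x => p (re B x), fun x => q (re B x) + del B hB x, max κ (1 / 2), M + 2, M + 1, ?_⟩
  refine
    { κ_pos := lt_max_of_lt_left hκ0
      κ_lt := max_lt hκ1 (by norm_num)
      one_le_M := by linarith
      one_le_C0 := by linarith
      p_nonneg := fun x => hp0 _
      q_nonneg := fun x => add_nonneg (hq0 _) (del_nonneg B hB x)
      p_zero := by simp only [hre0, hpz]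
      q_zero := by simp only [hre0, hqz, hdz, add_zero]
      p_neg := fun x => by simp only [re_neg, hpn]
      q_neg := fun x => by simp only [re_neg, hqn, del_neg]
      p_add := fun x y => by
        simp only [re_add]
        exact hpa _ _
      q_add := fun x y => by
        simp only [re_add]
        linarith [hqa (re B x) (re B y), del_add B hB x y]
      p_contr := fun x => by
        have h := hpc (re B ((sig B hB)⁻¹ x))
        rw [← re_sig B hB, sig_inv] at h
        exact h.trans (mul_le_mul_of_nonneg_right (le_max_left _ _) (hp0 _))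
      q_contr := fun x => by
        have h := hqc (re B x)
        rw [← re_sig B hB] at h
        have h1 := del_sig B hB x
        have h2 : κ * q (re B x) ≤ max κ (1 / 2) * q (re B x) :=
          mul_le_mul_of_nonneg_right (le_max_left _ _) (hq0 _)
        have h3 : 1 / 2 * del B hB x ≤ max κ (1 / 2) * del B hB x :=
          mul_le_mul_of_nonneg_right (le_max_right _ _) (del_nonneg B hB x)
        simp only [mul_add]
        linarith
      p_grow := fun x => by
        have h := hpg (re B x)
        rw [← re_sig B hB] at h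
        have h1 := hp0 (re B x)
        simp only [add_mul]
        linarith
      q_grow := fun x => by
        have h := hqg (re B ((sig B hB)⁻¹ x))
        rw [← re_sig B hB, sig_inv] at h
        have h1 := del_sig B hB ((sig B hB)⁻¹ x)
        rw [sig_inv] at h1
        have h2 := hq0 (re B x)
        have h3 := del_nonneg B hB x
        have h4 := mul_nonneg hM0 h3
        simp only [add_mul, mul_add]
        linarith
      fin := fun C => by
        obtain ⟨D, hD⟩ := pow_unbounded_of_one_lt C (by norm_num : (1 : ℝ) < 2)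
        apply Set.Finite.of_finite_image (f := fun x => (sig B hB ^ (D : ℤ)) x)
        · refine (fin_int B (M * (M ^ D * C + C))).subset ?_
          rintro _ ⟨x, ⟨hx1, hx2⟩, rfl⟩
          have hx1' : p (re B x) ≤ C := hx1
          have hx2' : q (re B x) + del B hB x ≤ C := hx2
          have hq1 := hq0 (re B x)
          have hd1 := del_nonneg B hB x
          refine ⟨?_, ?_⟩
          · obtain ⟨d, hd, hd'⟩ := del_lt B hB x (2 ^ D) (by linarith)
            have hdD : d ≤ (D : ℤ) := by
              rw [← zpow_natCast] at hd'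
              exact ((zpow_lt_zpow_iff_right₀ (by norm_num : (1 : ℝ) < 2)).1 hd').le
            exact In_mono B hB d D hdD x hd
          · have h1 := hgrow D x
            refine (hnorm _).trans (mul_le_mul_of_nonneg_left ?_ hM0)
            have h2 : M ^ D * p (re B x) ≤ M ^ D * C := mul_le_mul_of_nonneg_left hx1' (by positivity)
            linarith [h1.1, h1.2]
        · exact fun x _ y _ h => (sig B hB ^ (D : ℤ)).injective h
      sep := fun x h1 h2 => by
        have h1' : p (re B x) = 0 := h1
        have h2' : q (re B x) + del B hB x = 0 := h2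
        have h3 := hq0 (re B x)
        have h4 := del_nonneg B hB x
        have h5 : q (re B x) = 0 := by linarith
        have h6 := hnorm (re B x)
        rw [h1', h5, add_zero, mul_zero] at h6
        have h7 : re B x = 0 := norm_le_zero_iff.1 h6
        exact re_inj B x 0 (h7.trans hre0.symm)
      appr := fun x y => by
        obtain ⟨u, hu1, hu2⟩ := happ (re B x - re B y) 0
        set w : Fin (n + 1) → ℤ := fun i => round (u i) with hw
        have hwr : re B (ofI B w) = fun i => ((round (u i) : ℤ) : ℝ) := re_ofI B w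
        have hd1 : ‖u - re B (ofI B w)‖ ≤ 1 := by
          rw [hwr]
          exact hround u
        refine ⟨y + ofI B w, ?_, ?_⟩
        · have e : re B (x - (y + ofI B w)) = (re B x - re B y - u) + (u - re B (ofI B w)) := by
            rw [re_sub, re_add]
            abel
          have h1 := hpa (re B x - re B y - u) (u - re B (ofI B w))
          have h2 := hpM (u - re B (ofI B w))
          have h3 : M * ‖u - re B (ofI B w)‖ ≤ M * 1 := mul_le_mul_of_nonneg_left hd1 hM0
          simp only [e]
          linarith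
        · have e : re B (y - (y + ofI B w)) = (0 - u) + (u - re B (ofI B w)) := by
            rw [re_sub, re_add]
            abel
          have h1 := hqa (0 - u) (u - re B (ofI B w))
          have h2 := hqM (u - re B (ofI B w))
          have h3 : M * ‖u - re B (ofI B w)‖ ≤ M * 1 := mul_le_mul_of_nonneg_left hd1 hM0
          have h4 : del B hB (y - (y + ofI B w)) ≤ 1 := by
            have e2 : y - (y + ofI B w) = -(ofI B w) := by abel
            rw [e2, del_neg]
            have h5 : In B hB 0 (ofI B w) := (In_zero B hB _).2 (fun i => ⟨w i, rfl⟩)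
            have h6 := del_le B hB _ 0 h5
            simpa using h6
          simp only [e]
          linarith
      nontriv := ⟨ofI B (fun _ => 1), fun h => by
        have h1 := congrArg (re B) h
        rw [re_ofI, hre0] at h1
        have h2 := congrFun h1 0
        simp at h2⟩ }

end Pool.Agent.J6H3.CH33
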